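import Mathlib

/-!
# MP_81a4f1_co : local independence frequency does not force a Hamiltonian path

Six special vertices `0, 1, 2, 3, 4, 5` and a clique `K` on `m` vertices.  The vertex `0` is
adjacent to `1`, to `2` and to every vertex of `K`; the vertices `3, 4, 5` are adjacent exactly to
the vertices of `K`.  The vertices `1, 2` are pendant at `0`.  For `m ≥ 14` this graph satisfies the
hypothesis of the conjecture and has no Hamiltonian path.
-/

set_option autoImplicit false

namespace Pool.Agent.Results.MP_81a4f1_co.ManyLocal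

open Finset

/-- The local independence number of `v`: the independence number of the subgraph induced on the
open neighbourhood of `v`. -/
noncomputable def localIndep {V : Type*} (G : SimpleGraph V) (v : V) : ℕ :=
  (G.induce (G.neighborSet v)).indepNum

/-- `lambdaMax G`: the maximum over all vertices of the local independence number. -/
noncomputable def lambdaMax {V : Type*} [Fintype V] (G : SimpleGraph V) : ℕ :=
  Finset.univ.sup (localIndep G)

/-- `freq G`: the number of vertices whose local independence number is `lambdaMax G`. -/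
noncomputable def freq {V : Type*} [Fintype V] (G : SimpleGraph V) : ℕ :=
  {v : V | localIndep G v = lambdaMax G}.ncard

/-- The graph has a Hamiltonian path: a walk visiting every vertex exactly once. -/
def Traceable {V : Type*} [DecidableEq V] (G : SimpleGraph V) : Prop :=
  ∃ (u v : V) (p : G.Walk u v), p.IsHamiltonian

/-- adjacency in the example -/
def adj (m : ℕ) : Fin 6 ⊕ Fin m → Fin 6 ⊕ Fin m → Prop
  | .inl i, .inl j => (i = 0 ∧ (j = 1 ∨ j = 2)) ∨ (j = 0 ∧ (i = 1 ∨ i = 2))
  | .inl i, .inr _ => i ≠ 1 ∧ i ≠ 2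
  | .inr _, .inl j => j ≠ 1 ∧ j ≠ 2
  | .inr a, .inr b => a ≠ b

instance (m : ℕ) : DecidableRel (adj m) := by
  intro x y
  rcases x with i | a <;> rcases y with j | b <;> unfold adj <;> infer_instance

/-- the example graph -/
def X (m : ℕ) : SimpleGraph (Fin 6 ⊕ Fin m) where
  Adj := adj m
  symm := ⟨by
    rintro (i | a) (j | b) h <;> simp only [adj] at h ⊢
    · tauto
    · exact h
    · exact h
    · exact h.symm⟩
  loopless := ⟨by
    rintro (i | a) h <;> simp only [adj] at h
    · rcases h with ⟨h1, h2 | h2⟩ | ⟨h1, h2 | h2⟩ <;> simp [h1] at h2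
    · exact h rfl⟩

instance (m : ℕ) : DecidableRel (X m).Adj := inferInstanceAs (DecidableRel (adj m))

lemma adj_ll {m : ℕ} (i j : Fin 6) : (X m).Adj (.inl i) (.inl j) ↔
    (i = 0 ∧ (j = 1 ∨ j = 2)) ∨ (j = 0 ∧ (i = 1 ∨ i = 2)) := Iff.rfl
lemma adj_lr {m : ℕ} (i : Fin 6) (b : Fin m) : (X m).Adj (.inl i) (.inr b) ↔ i ≠ 1 ∧ i ≠ 2 := Iff.rfl
lemma adj_rl {m : ℕ} (a : Fin m) (j : Fin 6) : (X m).Adj (.inr a) (.inl j) ↔ j ≠ 1 ∧ j ≠ 2 := Iff.rfl
lemma adj_rr {m : ℕ} (a b : Fin m) : (X m).Adj (.inr a) (.inr b) ↔ a ≠ b := Iff.rfl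

/-! ### independence numbers -/

/-- an independent set contains at most one vertex of the clique, and besides only special
vertices in a given set -/
lemma card_indep_le {m : ℕ} (s : Finset (Fin 6 ⊕ Fin m)) (hs : (X m).IsIndepSet (s : Set _))
    (T : Finset (Fin 6)) (hT : ∀ i, .inl i ∈ s → i ∈ T) : s.card ≤ T.card + 1 := by
  classical
  have h1 : s.card = s.toLeft.card + s.toRight.card := (Finset.card_toLeft_add_card_toRight).symm
  have h2 : s.toLeft.card ≤ T.card := Finset.card_le_card (by
    intro i hi; exact hT i (by simpa using hi))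
  have h3 : s.toRight.card ≤ 1 := by
    rw [Finset.card_le_one]
    intro a ha b hb
    by_contra hne
    have ha' : (.inr a : Fin 6 ⊕ Fin m) ∈ (s : Set (Fin 6 ⊕ Fin m)) := by simpa using ha
    have hb' : (.inr b : Fin 6 ⊕ Fin m) ∈ (s : Set (Fin 6 ⊕ Fin m)) := by simpa using hb
    exact hs ha' hb' (by simpa using hne) ((adj_rr a b).mpr hne)
  omega

lemma localIndep_le_of {m : ℕ} (v : Fin 6 ⊕ Fin m) (k : ℕ)
    (h : ∀ s : Finset (Fin 6 ⊕ Fin m), (X m).IsIndepSet (s : Set _) → (∀ x ∈ s, (X m).Adj v x) →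
      s.card ≤ k) : localIndep (X m) v ≤ k := by
  classical
  unfold localIndep
  obtain ⟨s, hs⟩ := ((X m).induce ((X m).neighborSet v)).exists_isNIndepSet_indepNum
  rw [← hs.card_eq, ← Finset.card_map (Function.Embedding.subtype _)]
  apply h
  · intro a ha b hb hne
    simp only [Finset.coe_map, Set.mem_image, Finset.mem_coe, Function.Embedding.subtype_apply] at ha hb
    obtain ⟨a', ha', rfl⟩ := ha
    obtain ⟨b', hb', rfl⟩ := hb
    have := hs.isIndepSet ha' hb' (fun h => hne (by rw [h]))
    simpa using this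
  · intro x hx
    simp only [Finset.mem_map, Function.Embedding.subtype_apply] at hx
    obtain ⟨a', _, rfl⟩ := hx
    exact a'.2

lemma localIndep_le {m : ℕ} (v : Fin 6 ⊕ Fin m) : localIndep (X m) v ≤ 4 := by
  classical
  apply localIndep_le_of
  intro s hs hv
  rcases v with i | a
  · -- special vertex
    have hT : ∀ j, .inl j ∈ s → j ∈ ({0, 1, 2} : Finset (Fin 6)) := by
      intro j hj
      have := hv _ hj
      rw [adj_ll] at this
      simp only [Finset.mem_insert, Finset.mem_singleton]
      tauto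
    have := card_indep_le s hs _ hT
    simpa using this
  · by_cases h : ∃ b, .inr b ∈ s
    · obtain ⟨b, hb⟩ := h
      have hT : ∀ j, .inl j ∈ s → j ∈ (∅ : Finset (Fin 6)) := by
        intro j hj
        exfalso
        have h1 := hv _ hj
        exact hs hb hj (by simp) h1
      have := card_indep_le s hs _ hT
      simp at this
      omega
    · have h1 : s ⊆ ({.inl 0, .inl 3, .inl 4, .inl 5} : Finset (Fin 6 ⊕ Fin m)) := by
        rintro (j | b) hj
        · have := hv _ hj
          rw [adj_rl] at this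
          revert this
          fin_cases j <;> simp
        · exact absurd ⟨b, hj⟩ h
      exact (Finset.card_le_card h1).trans (by
        refine (Finset.card_insert_le _ _).trans ?_
        refine Nat.succ_le_succ ((Finset.card_insert_le _ _).trans ?_)
        refine Nat.succ_le_succ ((Finset.card_insert_le _ _).trans ?_)
        simp)

lemma localIndep_inr {m : ℕ} (a : Fin m) : localIndep (X m) (.inr a) = 4 := by
  classical
  apply le_antisymm (localIndep_le _)
  unfold localIndep
  have hmem : ∀ j : Fin 6, j ≠ 1 → j ≠ 2 → (.inl j : Fin 6 ⊕ Fin m) ∈ (X m).neighborSet (.inr a) := by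
    intro j h1 h2
    exact ⟨h1, h2⟩
  let f : Fin 4 → (X m).neighborSet (.inr a) := ![⟨.inl 0, hmem 0 (by decide) (by decide)⟩,
    ⟨.inl 3, hmem 3 (by decide) (by decide)⟩, ⟨.inl 4, hmem 4 (by decide) (by decide)⟩,
    ⟨.inl 5, hmem 5 (by decide) (by decide)⟩]
  have hf : Function.Injective f := by
    intro i j h
    have h' := congrArg Subtype.val h
    revert h'
    fin_cases i <;> fin_cases j <;> simp [f]
  have h4 : (Finset.univ.map ⟨f, hf⟩).card = 4 := by simp
  rw [← h4]
  apply SimpleGraph.IsIndepSet.card_le_indepNum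
  intro x hx y hy _
  simp only [Finset.coe_map, Finset.coe_univ, Set.image_univ, Set.mem_range,
    Function.Embedding.coeFn_mk] at hx hy
  obtain ⟨i, rfl⟩ := hx
  obtain ⟨j, rfl⟩ := hy
  simp only [SimpleGraph.comap_adj, Function.Embedding.subtype_apply]
  fin_cases i <;> fin_cases j <;> simp [f, adj_ll]

lemma lambdaMax_eq {m : ℕ} (hm : 0 < m) : lambdaMax (X m) = 4 := by
  apply le_antisymm
  · exact Finset.sup_le fun v _ => localIndep_le v
  · have := Finset.le_sup (f := localIndep (X m)) (Finset.mem_univ (.inr ⟨0, hm⟩))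
    rw [localIndep_inr] at this
    exact this

lemma le_freq {m : ℕ} (hm : 0 < m) : m ≤ freq (X m) := by
  classical
  unfold freq
  rw [lambdaMax_eq hm]
  have h1 : Set.range (Sum.inr : Fin m → Fin 6 ⊕ Fin m) ⊆ {v | localIndep (X m) v = 4} := by
    rintro _ ⟨a, rfl⟩
    exact localIndep_inr a
  have h2 := Set.ncard_le_ncard h1 (Set.toFinite _)
  rwa [Set.ncard_eq_toFinset_card', Set.toFinset_range,
    Finset.card_image_of_injective _ Sum.inr_injective, Finset.card_univ, Fintype.card_fin] at h2

/-! ### number of edges of the complement -/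

lemma card_compl {m : ℕ} : ((X m)ᶜ).edgeFinset.card = 2 * m + 13 := by
  classical
  have h := (X m)ᶜ.sum_degrees_eq_twice_card_edges
  have hd : ∀ v, ((X m)ᶜ).degree v = (Finset.univ.filter (fun w => w ≠ v ∧ ¬ (X m).Adj v w)).card := by
    intro v
    rw [← SimpleGraph.card_neighborFinset_eq_degree]
    congr 1
    ext w
    simp only [SimpleGraph.mem_neighborFinset, SimpleGraph.compl_adj, Finset.mem_filter,
      Finset.mem_univ, true_and, ne_comm]
  simp only [hd] at h
  have key : ∀ v, (Finset.univ.filter (fun w => w ≠ v ∧ ¬ (X m).Adj v w)).card =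
      (Finset.univ.filter (fun i : Fin 6 => .inl i ≠ v ∧ ¬ (X m).Adj v (.inl i))).card +
      (Finset.univ.filter (fun a : Fin m => .inr a ≠ v ∧ ¬ (X m).Adj v (.inr a))).card := by
    intro v
    simp only [Finset.card_filter]
    rw [Fintype.sum_sum_type]
  simp only [key, Fintype.sum_sum_type, Fin.sum_univ_six] at h
  have e1 : ∀ i : Fin 6, (i = 1 ∨ i = 2) →
      (Finset.univ.filter (fun a : Fin m => (.inr a : Fin 6 ⊕ Fin m) ≠ .inl i ∧
        ¬ (X m).Adj (.inl i) (.inr a))).card = m := by
    intro i hi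
    rw [Finset.filter_true_of_mem]
    · simp
    · intro a _
      rw [adj_lr]
      refine ⟨by simp, ?_⟩
      tauto
  have e2 : ∀ i : Fin 6, (i ≠ 1 ∧ i ≠ 2) →
      (Finset.univ.filter (fun a : Fin m => (.inr a : Fin 6 ⊕ Fin m) ≠ .inl i ∧
        ¬ (X m).Adj (.inl i) (.inr a))).card = 0 := by
    intro i hi
    rw [Finset.card_eq_zero, Finset.filter_eq_empty_iff]
    intro a _
    rw [adj_lr]
    tauto
  have e3 : ∀ a : Fin m,
      (Finset.univ.filter (fun b : Fin m => (.inr b : Fin 6 ⊕ Fin m) ≠ .inr a ∧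
        ¬ (X m).Adj (.inr a) (.inr b))).card = 0 := by
    intro a
    rw [Finset.card_eq_zero, Finset.filter_eq_empty_iff]
    intro b _
    rw [adj_rr]
    simp only [ne_eq, Sum.inr.injEq, not_and, not_not]
    exact fun h => fun h' => h h'.symm
  have e4 : ∀ a : Fin m,
      (Finset.univ.filter (fun i : Fin 6 => (.inl i : Fin 6 ⊕ Fin m) ≠ .inr a ∧
        ¬ (X m).Adj (.inr a) (.inl i))).card = 2 := by
    intro a
    have : (Finset.univ.filter (fun i : Fin 6 => (.inl i : Fin 6 ⊕ Fin m) ≠ .inr a ∧
        ¬ (X m).Adj (.inr a) (.inl i))) = {1, 2} := by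
      ext i
      simp only [Finset.mem_filter, Finset.mem_univ, true_and, adj_rl]
      fin_cases i <;> simp
    rw [this]; rfl
  have e5 : ∀ i : Fin 6, (Finset.univ.filter (fun j : Fin 6 => (.inl j : Fin 6 ⊕ Fin m) ≠ .inl i ∧
        ¬ (X m).Adj (.inl i) (.inl j))).card =
      (Finset.univ.filter (fun j : Fin 6 => j ≠ i ∧
        ¬ ((i = 0 ∧ (j = 1 ∨ j = 2)) ∨ (j = 0 ∧ (i = 1 ∨ i = 2))))).card := by
    intro i
    congr 1
    ext j
    simp only [Finset.mem_filter, Finset.mem_univ, true_and, adj_ll, ne_eq, Sum.inl.injEq]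
  rw [e2 0 (by decide), e1 1 (by decide), e1 2 (by decide), e2 3 (by decide), e2 4 (by decide),
    e2 5 (by decide)] at h
  have e6 : ∀ i : Fin 6, (Finset.univ.filter (fun j : Fin 6 => (.inl j : Fin 6 ⊕ Fin m) ≠ .inl i ∧
        ¬ (X m).Adj (.inl i) (.inl j))).card = ![3, 4, 4, 5, 5, 5] i := by
    intro i
    rw [e5]
    revert i
    decide
  simp only [e3, e4, e6] at h
  simp only [Finset.sum_const, Finset.card_univ, Fintype.card_fin, smul_eq_mul,
    Matrix.cons_val] at h
  omega

/-! ### connectedness and the absence of a Hamiltonian path -/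

lemma connected {m : ℕ} (hm : 0 < m) : (X m).Connected := by
  have hK : ∀ v : Fin 6 ⊕ Fin m, (X m).Reachable (.inl 0) v := by
    have h0 : (X m).Adj (.inl 0) (.inr ⟨0, hm⟩) := by rw [adj_lr]; decide
    rintro (i | a)
    · by_cases h : i = 1 ∨ i = 2
      · exact SimpleGraph.Adj.reachable (by rw [adj_ll]; tauto)
      · refine h0.reachable.trans (SimpleGraph.Adj.reachable ?_)
        rw [adj_rl]; tauto
    · exact SimpleGraph.Adj.reachable (by rw [adj_lr]; decide)
  exact { preconnected := fun u v => (hK u).symm.trans (hK v)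
          nonempty := ⟨.inl 0⟩ }

lemma not_traceable {m : ℕ} (hm : 0 < m) : ¬ Traceable (X m) := by
  rintro ⟨u, v, p, hp⟩
  have hlen : p.length + 1 = m + 6 := by
    have := hp.length_support
    rw [SimpleGraph.Walk.length_support] at this
    simp at this
    omega
  have hinj := hp.isPath.getVert_injOn
  -- a pendant vertex sits at an end of the path
  have hend : ∀ i : Fin 6, (i = 1 ∨ i = 2) → ∃ k, k ≤ p.length ∧ p.getVert k = .inl i ∧
      (k = 0 ∨ k = p.length) := by
    intro i hi
    obtain ⟨k, hk, hkl⟩ := SimpleGraph.Walk.mem_support_iff_exists_getVert.mp (hp.mem_support (.inl i))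
    refine ⟨k, hkl, hk, ?_⟩
    by_contra hcon
    push Not at hcon
    have hnb : ∀ w, (X m).Adj (.inl i) w → w = .inl 0 := by
      rintro (j | b) hw
      · rw [adj_ll] at hw
        rcases hw with ⟨h1, _⟩ | ⟨h1, _⟩
        · rcases hi with rfl | rfl <;> simp at h1
        · rw [h1]
      · rw [adj_lr] at hw
        tauto
    have h1 : (X m).Adj (p.getVert (k - 1)) (p.getVert k) := by
      have := p.adj_getVert_succ (i := k - 1) (by omega)
      rwa [show k - 1 + 1 = k by omega] at this
    have h2 : (X m).Adj (p.getVert k) (p.getVert (k + 1)) := p.adj_getVert_succ (by omega)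
    rw [hk] at h1 h2
    have e1 := hnb _ h1.symm
    have e2 := hnb _ h2
    have := hinj (x₁ := k - 1) (x₂ := k + 1) (by simp; omega) (by simp; omega) (e1.trans e2.symm)
    omega
  obtain ⟨k1, hk1, e1, h1⟩ := hend 1 (Or.inl rfl)
  obtain ⟨k2, hk2, e2, h2⟩ := hend 2 (Or.inr rfl)
  have hne : k1 ≠ k2 := by
    rintro rfl
    rw [e1] at e2
    simp at e2
  -- the two vertices next to the ends are both the vertex `0`
  have hnb : ∀ i : Fin 6, (i = 1 ∨ i = 2) → ∀ w, (X m).Adj (.inl i) w → w = .inl 0 := by
    intro i hi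
    rintro (j | b) hw
    · rw [adj_ll] at hw
      rcases hw with ⟨h1, _⟩ | ⟨h1, _⟩
      · rcases hi with rfl | rfl <;> simp at h1
      · rw [h1]
    · rw [adj_lr] at hw
      tauto
  have hfirst : p.getVert 1 = .inl 0 := by
    have h := p.adj_getVert_succ (i := 0) (by omega)
    rcases h1 with h1 | h1
    · subst h1; rw [e1] at h; exact hnb 1 (Or.inl rfl) _ h
    · rcases h2 with h2 | h2
      · subst h2; rw [e2] at h; exact hnb 2 (Or.inr rfl) _ h
      · omega
  have hlast : p.getVert (p.length - 1) = .inl 0 := by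
    have h := p.adj_getVert_succ (i := p.length - 1) (by omega)
    rw [show p.length - 1 + 1 = p.length by omega] at h
    rcases h1 with h1 | h1
    · rcases h2 with h2 | h2
      · omega
      · subst h2; rw [e2] at h; exact hnb 2 (Or.inr rfl) _ h.symm
    · subst h1; rw [e1] at h; exact hnb 1 (Or.inl rfl) _ h.symm
  have := hinj (x₁ := 1) (x₂ := p.length - 1) (by simp; omega) (by simp) (hfirst.trans hlast.symm)
  omega

/-- **Disproof of the conjecture, in every order `n ≥ 20`.**  For every `n ≥ 20` there is a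
connected simple graph on `n` vertices with `(1/6) (1 + 2 |E(complement)|) ≤ f(G)` and without a
Hamiltonian path. -/
theorem result : ∀ n : ℕ, 20 ≤ n → ∃ (V : Type) (_ : Fintype V) (_ : DecidableEq V)
    (G : SimpleGraph V), Fintype.card V = n ∧ G.Connected ∧
      (1 / 6 : ℝ) * (1 + 2 * (Gᶜ.edgeSet.ncard : ℝ)) ≤ (freq G : ℝ) ∧ ¬ Traceable G := by
  intro n hn
  obtain ⟨m, rfl⟩ := Nat.exists_eq_add_of_le (show 6 ≤ n by omega)
  have hm : 0 < m := by omega
  refine ⟨Fin 6 ⊕ Fin m, inferInstance, inferInstance, X m, by simp, connected hm, ?_,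
    not_traceable hm⟩
  have h1 : ((X m)ᶜ).edgeSet.ncard = 2 * m + 13 := by
    rw [← card_compl (m := m), Set.ncard_eq_toFinset_card']
    rfl
  have h2 : (m : ℝ) ≤ freq (X m) := by exact_mod_cast le_freq hm
  have h3 : (14 : ℝ) ≤ m := by
    have : 14 ≤ m := by omega
    exact_mod_cast this
  rw [h1]
  push_cast
  linarith

end Pool.Agent.Results.MP_81a4f1_co.ManyLocal
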